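import Pool.Agent.Helper14.LE.Stmts2

/-!
# MP_08fe4e_an: module POT (potentials of bounded functions are `C¹`; of `C¹` functions, `C²`)
-/

open MeasureTheory Set Filter Topology InnerProductSpace Laplacian

noncomputable section

namespace LEP

namespace POT

variable {E : Type} [NormedAddCommGroup E] [InnerProductSpace ℝ E] [FiniteDimensional ℝ E]
  [MeasurableSpace E] [BorelSpace E]

omit [InnerProductSpace ℝ E] [FiniteDimensional ℝ E] [MeasurableSpace E] [BorelSpace E] in
lemma supp_bdd {F : E → ℝ} (hc : HasCompactSupport F) : ∃ R0 : ℝ, 0 < R0 ∧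
    ∀ y, R0 ≤ ‖y‖ → F y = 0 := by
  obtain ⟨r, hr⟩ := hc.isBounded.subset_closedBall (0 : E)
  refine ⟨max r 0 + 1, by positivity, fun y hy => ?_⟩
  by_contra h
  have h1 : y ∈ tsupport F := subset_tsupport F h
  have h2 := hr h1
  rw [mem_closedBall_zero_iff] at h2
  have h3 : r ≤ max r 0 := le_max_left _ _
  linarith

lemma int_F {F : E → ℝ} {M : ℝ} (hm : Measurable F) (hb : ∀ x, |F x| ≤ M)
    (hc : HasCompactSupport F) : Integrable F volume := by
  obtain ⟨R0, -, hR⟩ := supp_bdd hc
  have h1 : IntegrableOn F (Metric.closedBall (0 : E) R0) volume := by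
    refine Measure.integrableOn_of_bounded (M := M) ?_ hm.aestronglyMeasurable ?_
    · exact (isCompact_closedBall (0 : E) R0).measure_lt_top.ne
    · exact Eventually.of_forall fun x => by simpa using hb x
  rw [← integrableOn_iff_integrable_of_support_subset (s := Metric.closedBall (0 : E) R0)]
  · exact h1
  · intro y hy
    rw [mem_closedBall_zero_iff]
    by_contra h
    exact hy (hR y (not_le.1 h).le)

/-- Smooth kernels. -/
lemma conv_smooth {G : Type} [NormedAddCommGroup G] [NormedSpace ℝ G] [CompleteSpace G]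
    {Φ : E → G} (hΦ : Continuous Φ) {F : E → ℝ} {M : ℝ}
    (hm : Measurable F) (hb : ∀ x, |F x| ≤ M) (hc : HasCompactSupport F) :
    (∀ x, Integrable (fun y => F y • Φ (x - y)) volume) ∧
    Continuous (fun x => ∫ y, F y • Φ (x - y)) := by
  have hF := int_F hm hb hc
  obtain ⟨R0, hR0, hR⟩ := supp_bdd hc
  have key : ∀ ρ : ℝ, ∃ C : ℝ, ∀ x ∈ Metric.closedBall (0 : E) ρ, ∀ y,
      ‖F y • Φ (x - y)‖ ≤ C * |F y| := by
    intro ρ
    obtain ⟨C, hC⟩ := (isCompact_closedBall (0 : E) (ρ + R0)).exists_bound_of_continuousOn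
      hΦ.continuousOn
    refine ⟨C, fun x hx y => ?_⟩
    rw [norm_smul, Real.norm_eq_abs, mul_comm]
    by_cases h : R0 ≤ ‖y‖
    · rw [hR y h]; simp
    · refine mul_le_mul_of_nonneg_right (hC _ ?_) (abs_nonneg _)
      rw [mem_closedBall_zero_iff] at hx ⊢
      have := norm_sub_le x y
      push Not at h
      linarith
  have meas : ∀ x, AEStronglyMeasurable (fun y => F y • Φ (x - y)) volume := by
    intro x
    refine hm.aestronglyMeasurable.smul ?_
    exact (hΦ.comp (continuous_const.sub continuous_id)).aestronglyMeasurable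
  constructor
  · intro x
    obtain ⟨C, hC⟩ := key ‖x‖
    refine Integrable.mono' (hF.abs.const_mul C) (meas x) ?_
    exact Eventually.of_forall fun y => hC x (by simp) y
  · rw [continuous_iff_continuousAt]
    intro x
    obtain ⟨C, hC⟩ := key (‖x‖ + 1)
    refine continuousAt_of_dominated (bound := fun y => C * |F y|) ?_ ?_ (hF.abs.const_mul C) ?_
    · exact Eventually.of_forall meas
    · have : Metric.ball x 1 ∈ 𝓝 x := Metric.ball_mem_nhds x one_pos
      filter_upwards [this] with z hz
      refine Eventually.of_forall fun y => hC z ?_ y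
      rw [mem_closedBall_zero_iff]
      rw [mem_ball_iff_norm] at hz
      have := norm_le_norm_add_norm_sub' z x
      linarith
    · refine Eventually.of_forall fun y => ?_
      exact (continuous_const.smul (hΦ.comp (continuous_id.sub continuous_const))).continuousAt

lemma conv_fderiv {Φ : E → ℝ} (hΦ : ContDiff ℝ 1 Φ) {F : E → ℝ} {M : ℝ}
    (hm : Measurable F) (hb : ∀ x, |F x| ≤ M) (hc : HasCompactSupport F) (x : E) :
    HasFDerivAt (fun x => ∫ y, F y * Φ (x - y)) (∫ y, F y • fderiv ℝ Φ (x - y)) x := by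
  have hF := int_F hm hb hc
  obtain ⟨R0, hR0, hR⟩ := supp_bdd hc
  have hc1 : Continuous (fderiv ℝ Φ) := hΦ.continuous_fderiv one_ne_zero
  have hd : Differentiable ℝ Φ := hΦ.differentiable one_ne_zero
  obtain ⟨C, hC⟩ := (isCompact_closedBall (0 : E) (‖x‖ + 1 + R0)).exists_bound_of_continuousOn
      hc1.continuousOn
  have h1 := conv_smooth hΦ.continuous hm hb hc
  have h2 := conv_smooth hc1 hm hb hc
  refine hasFDerivAt_integral_of_dominated_of_fderiv_le (bound := fun y => C * |F y|)
    (F' := fun x y => F y • fderiv ℝ Φ (x - y)) (Metric.ball_mem_nhds x one_pos) ?_ ?_ ?_ ?_ ?_ ?_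
  · exact Eventually.of_forall fun z => (h1.1 z).aestronglyMeasurable
  · exact h1.1 x
  · exact (h2.1 x).aestronglyMeasurable
  · refine Eventually.of_forall fun y z hz => ?_
    rw [norm_smul, Real.norm_eq_abs, mul_comm]
    by_cases h : R0 ≤ ‖y‖
    · rw [hR y h]; simp
    · refine mul_le_mul_of_nonneg_right (hC _ ?_) (abs_nonneg _)
      rw [mem_closedBall_zero_iff]
      rw [mem_ball_iff_norm] at hz
      have h3 := norm_le_norm_add_norm_sub' z x
      have h4 := norm_sub_le z y
      push Not at h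
      linarith
  · exact hF.abs.const_mul C
  · refine Eventually.of_forall fun y z hz => ?_
    have h3 : HasFDerivAt (fun z => Φ (z - y)) (fderiv ℝ Φ (z - y)) z := by
      have h4 : HasFDerivAt Φ (fderiv ℝ Φ (z - y)) (z - y) := (hd (z - y)).hasFDerivAt
      have h5 : HasFDerivAt (fun z : E => z - y) (ContinuousLinearMap.id ℝ E) z :=
        (hasFDerivAt_id z).sub_const y
      have h6 := h4.comp z h5
      rwa [ContinuousLinearMap.comp_id] at h6
    exact h3.const_mul (F y)

/-- Restriction of the kernel to a large ball. -/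
lemma conv_ball {G : Type} [NormedAddCommGroup G] [NormedSpace ℝ G] [CompleteSpace G]
    {Φ : E → G} (hΦ : LocallyIntegrable Φ volume) {F : E → ℝ} {M : ℝ}
    (hm : Measurable F) (hb : ∀ x, |F x| ≤ M) {R0 : ℝ} (hR : ∀ y, R0 ≤ ‖y‖ → F y = 0)
    {ρ : ℝ} {x : E} (hx : ‖x‖ < ρ) :
    Integrable (fun y => F y • Φ (x - y)) volume ∧
    IntegrableOn (fun y => F (x - y) • Φ y) (Metric.ball 0 (ρ + R0)) volume ∧
    ∫ y, F y • Φ (x - y) = ∫ y in Metric.ball (0 : E) (ρ + R0), F (x - y) • Φ y := by
  have hΦ1 : IntegrableOn Φ (Metric.ball (0 : E) (ρ + R0)) volume :=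
    (hΦ.integrableOn_isCompact (isCompact_closedBall (0 : E) (ρ + R0))).mono_set
      Metric.ball_subset_closedBall
  have h1 : IntegrableOn (fun y => F (x - y) • Φ y) (Metric.ball 0 (ρ + R0)) volume := by
    refine Integrable.bdd_smul (C := M) hΦ1 ?_ ?_
    · exact (hm.comp (measurable_const.sub measurable_id)).aestronglyMeasurable
    · exact Eventually.of_forall fun y => by simpa using hb (x - y)
  have hs : Function.support (fun y => F (x - y) • Φ y) ⊆ Metric.ball (0 : E) (ρ + R0) := by
    intro y hy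
    rw [mem_ball_zero_iff]
    by_contra h
    push Not at h
    apply hy
    have h3 : F (x - y) = 0 := by
      apply hR
      have := norm_sub_norm_le y x
      rw [norm_sub_rev] at this
      linarith
    simp [h3]
  have h2 : Integrable (fun y => F (x - y) • Φ y) volume :=
    (integrableOn_iff_integrable_of_support_subset hs).1 h1
  refine ⟨?_, h1, ?_⟩
  · have h3 := h2.comp_sub_left x
    simpa using h3
  · rw [setIntegral_eq_integral_of_forall_compl_eq_zero]
    · have h3 := integral_sub_left_eq_self (fun y => F (x - y) • Φ y) volume x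
      simpa using h3
    · intro y hy
      by_contra h
      exact hy (hs h)

/-- Uniform estimate of the difference of two potentials. -/
lemma conv_diff {G : Type} [NormedAddCommGroup G] [NormedSpace ℝ G] [CompleteSpace G]
    {Φ Ψ : E → G} (hΦ : LocallyIntegrable Φ volume) (hΨ : LocallyIntegrable Ψ volume)
    {F : E → ℝ} {M : ℝ}
    (hm : Measurable F) (hb : ∀ x, |F x| ≤ M) {R0 : ℝ} (hR : ∀ y, R0 ≤ ‖y‖ → F y = 0)
    {ρ : ℝ} {x : E} (hx : ‖x‖ < ρ) :
    ‖(∫ y, F y • Φ (x - y)) - ∫ y, F y • Ψ (x - y)‖ ≤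
      M * ∫ y in Metric.ball (0 : E) (ρ + R0), ‖Φ y - Ψ y‖ := by
  obtain ⟨-, a2, a3⟩ := conv_ball hΦ hm hb hR hx
  obtain ⟨-, b2, b3⟩ := conv_ball hΨ hm hb hR hx
  rw [a3, b3, ← integral_sub a2 b2, ← integral_const_mul]
  refine (norm_integral_le_integral_norm _).trans ?_
  have hM : 0 ≤ M := (abs_nonneg _).trans (hb 0)
  have h1 : IntegrableOn Φ (Metric.ball (0 : E) (ρ + R0)) volume :=
    (hΦ.integrableOn_isCompact (isCompact_closedBall (0 : E) (ρ + R0))).mono_set
      Metric.ball_subset_closedBall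
  have h2 : IntegrableOn Ψ (Metric.ball (0 : E) (ρ + R0)) volume :=
    (hΨ.integrableOn_isCompact (isCompact_closedBall (0 : E) (ρ + R0))).mono_set
      Metric.ball_subset_closedBall
  refine integral_mono (a2.sub b2).norm ((h1.sub h2).norm.const_mul M) ?_
  intro y
  show ‖F (x - y) • Φ y - F (x - y) • Ψ y‖ ≤ M * ‖Φ y - Ψ y‖
  rw [← smul_sub, norm_smul]
  exact mul_le_mul_of_nonneg_right (hb _) (norm_nonneg _)

end POT

open POT in
theorem st_POT : ST_POT := by
  intro E _ _ _ _ _ K Kn c hK F M hm hb hc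
  obtain ⟨R0, hR0, hR⟩ := supp_bdd hc
  have hF := int_F hm hb hc
  have hM : 0 ≤ M := (abs_nonneg _).trans (hb 0)
  have s1 : ∀ n, ContDiff ℝ 1 (Kn n) := fun n => (hK.smooth n).of_le (by simp)
  set u : E → ℝ := fun x => ∫ y, F y • K (x - y) with hu
  set J : E → (E →L[ℝ] ℝ) := fun x => ∫ y, F y • fderiv ℝ K (x - y) with hJ
  have e1 : (fun x => ∫ y, K (x - y) * F y) = u := by
    funext x
    simp only [hu, smul_eq_mul, mul_comm]
  have ln : ∀ n, LocallyIntegrable (Kn n) volume := fun n => (s1 n).continuous.locallyIntegrable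
  have ln' : ∀ n, LocallyIntegrable (fderiv ℝ (Kn n)) volume :=
    fun n => ((s1 n).continuous_fderiv one_ne_zero).locallyIntegrable
  -- uniform convergence on balls
  have U1 : ∀ ρ : ℝ, TendstoUniformlyOn (fun n x => ∫ y, F y • Kn n (x - y)) u atTop
      (Metric.ball (0 : E) ρ) := by
    intro ρ
    rw [Metric.tendstoUniformlyOn_iff]
    intro ε hε
    have h1 := (hK.lim (ρ + R0)).const_mul M
    rw [mul_zero] at h1
    filter_upwards [h1.eventually_lt_const hε] with n hn x hx
    rw [dist_comm, dist_eq_norm]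
    rw [mem_ball_zero_iff] at hx
    refine (conv_diff (ln n) hK.locK hm hb hR hx).trans_lt ?_
    simpa only [Real.norm_eq_abs] using hn
  have U2 : ∀ ρ : ℝ, TendstoUniformlyOn (fun n x => ∫ y, F y • fderiv ℝ (Kn n) (x - y)) J atTop
      (Metric.ball (0 : E) ρ) := by
    intro ρ
    rw [Metric.tendstoUniformlyOn_iff]
    intro ε hε
    have h1 := (hK.limJ (ρ + R0)).const_mul M
    rw [mul_zero] at h1
    filter_upwards [h1.eventually_lt_const hε] with n hn x hx
    rw [dist_comm, dist_eq_norm]
    rw [mem_ball_zero_iff] at hx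
    exact (conv_diff (ln' n) hK.locJ hm hb hR hx).trans_lt hn
  have D1 : ∀ x, HasFDerivAt u (J x) x := by
    intro x
    have hx : x ∈ Metric.ball (0 : E) (‖x‖ + 1) := by
      rw [mem_ball_zero_iff]; linarith
    refine hasFDerivAt_of_tendstoUniformlyOn (𝕜 := ℝ)
      (f := fun n x => ∫ y, F y • Kn n (x - y)) Metric.isOpen_ball (U2 (‖x‖ + 1)) ?_ ?_ hx
    · intro n z _
      exact conv_fderiv (s1 n) hm hb hc z
    · intro z hz
      exact (U1 (‖x‖ + 1)).tendsto_at hz
  have C1 : Continuous J := by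
    rw [continuous_iff_continuousAt]
    intro x
    have hx : x ∈ Metric.ball (0 : E) (‖x‖ + 1) := by
      rw [mem_ball_zero_iff]; linarith
    have h1 : ContinuousOn J (Metric.ball (0 : E) (‖x‖ + 1)) := by
      refine (U2 (‖x‖ + 1)).continuousOn (Frequently.of_forall fun n => ?_)
      exact (conv_smooth ((s1 n).continuous_fderiv one_ne_zero) hm hb hc).2.continuousOn
    exact h1.continuousAt (Metric.isOpen_ball.mem_nhds hx)
  have fd : fderiv ℝ u = J := by
    funext x
    exact (D1 x).fderiv
  have du : Differentiable ℝ u := fun x => (D1 x).differentiableAt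
  rw [e1]
  constructor
  · rw [contDiff_one_iff_fderiv]
    exact ⟨du, by rw [fd]; exact C1⟩
  · intro hF1
    have h3 : (2 : WithTop ℕ∞) = 1 + 1 := by norm_num
    rw [h3, contDiff_succ_iff_fderiv]
    refine ⟨du, by simp, ?_⟩
    rw [fd]
    have h4 : J = MeasureTheory.convolution (fderiv ℝ K) F
        (ContinuousLinearMap.lsmul ℝ ℝ (E := E →L[ℝ] ℝ)).flip volume := by
      funext x
      rw [MeasureTheory.convolution]
      simp only [hJ, ContinuousLinearMap.flip_apply, ContinuousLinearMap.lsmul_apply]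
      have h5 := integral_sub_left_eq_self (fun y => F (x - y) • fderiv ℝ K y) volume x
      simpa using h5
    rw [h4]
    exact hc.contDiff_convolution_right _ hK.locJ hF1

end LEP
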