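import Pool.Agent.Helper23.LE.LapB

/-!
# MP_08fe4e_an: module WEAK2 (weak equation of `T_D f`)
-/

open MeasureTheory Set Filter Topology InnerProductSpace Laplacian

noncomputable section

namespace LEP

namespace WEAK2

lemma dom_bdd {R : ℝ → ℝ} (hR : Prof R) : ∃ B : ℝ, 0 < B ∧ ∀ z ∈ Ddom R, ‖z‖ < B := by
  obtain ⟨B, hB⟩ := hR.bdd
  refine ⟨B, ?_, fun z hz => ?_⟩
  · have h1 := hR.one_le 0
    have h2 := hB 0
    linarith
  · exact lt_of_lt_of_le hz.1 (hB _)

lemma psi_le {z : ℂ} (hz : z ∈ Qd) : 0 ≤ psi z ∧ psi z ≤ ‖z‖ := by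
  unfold psi
  have h1 : 0 < z.re := hz.1
  have h2 : 0 < z.im := hz.2
  have h3 : 0 < ‖z‖ := lt_of_lt_of_le h1 ((le_abs_self _).trans (Complex.abs_re_le_norm z))
  constructor
  · positivity
  · rw [div_le_iff₀ h3]
    have h4 : z.re ≤ ‖z‖ := (le_abs_self _).trans (Complex.abs_re_le_norm z)
    have h5 : z.im ≤ ‖z‖ := (le_abs_self _).trans (Complex.abs_im_le_norm z)
    exact mul_le_mul h4 h5 h2.le h3.le

lemma vol_fin {R : ℝ → ℝ} (hR : Prof R) : volume (Ddom R) < ⊤ := by
  obtain ⟨B, -, hB⟩ := dom_bdd hR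
  refine lt_of_le_of_lt (measure_mono (t := Metric.ball (0 : ℂ) B) ?_) measure_ball_lt_top
  intro z hz
  rw [mem_ball_zero_iff]
  exact hB z hz

end WEAK2

open WEAK2 in
theorem st_WEAK2 (h1 : ST_GREP) (h2 : ST_MEAS) (h3 : ST_GF2) (h4 : ST_T1) (h5 : ST_GEO) :
    ST_WEAK2 := by
  intro R hR f M hf hM φ hφ hc hs
  have hD : IsOpen (Ddom R) := (h5.1 R hR).2.1
  have hG := h3 R hR
  set D := Ddom R with hDdef
  set g := gD D with hg
  obtain ⟨hgm, -⟩ := h2 D g hD hG
  have hfin : volume D < ⊤ := vol_fin hR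
  have : IsFiniteMeasure (volume.restrict D) := ⟨by simpa using hfin⟩
  obtain ⟨B, hB0, hB⟩ := dom_bdd hR
  -- the Laplacian is continuous and bounded
  have hLc : Continuous (Δ φ) := LapB.lap_cont hφ
  have hLs : HasCompactSupport (Δ φ) := LapB.lap_hcs hc
  obtain ⟨L, hL⟩ := hLs.exists_bound_of_continuous hLc
  obtain ⟨C, hC0, hC⟩ := h4
  have hone := hC R hR (fun _ => (1 : ℝ)) aestronglyMeasurable_const (by simp [IntegrableOn])
  -- integrability of g on D x D
  have hgi : Integrable (fun q : ℂ × ℂ => g q.1 q.2)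
      ((volume.restrict D).prod (volume.restrict D)) := by
    rw [integrable_prod_iff hgm.aestronglyMeasurable]
    constructor
    · filter_upwards [ae_restrict_mem hD.measurableSet] with x hx
      have h6 := (hone x hx).1
      simp only [mul_one] at h6
      exact h6
    · have hb : ∀ x ∈ D, ‖∫ y in D, ‖g x y‖‖ ≤
          C * B * B ^ ((1 : ℝ) / 2) * (∫ y in D, (1 : ℝ) ^ 4) ^ ((1 : ℝ) / 4) := by
        intro x hx
        have e1 := (hone x hx).2
        have e2 : ∫ y in D, ‖g x y‖ = TD (Ddom R) (fun _ => 1) x := by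
          simp only [TD, mul_one]
          congr 1
          funext y
          exact Real.norm_of_nonneg (hG.nonneg x y)
        rw [e2, Real.norm_eq_abs]
        refine e1.trans ?_
        have e3 := psi_le hx.2
        have e4 := (hB x hx).le
        have e5 : ‖x‖ ^ ((1 : ℝ) / 2) ≤ B ^ ((1 : ℝ) / 2) :=
          Real.rpow_le_rpow (norm_nonneg _) e4 (by norm_num)
        have e6 : 0 ≤ (∫ y in D, (1 : ℝ) ^ 4) ^ ((1 : ℝ) / 4) := by
          apply Real.rpow_nonneg
          exact integral_nonneg fun _ => by norm_num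
        refine mul_le_mul_of_nonneg_right ?_ e6
        refine mul_le_mul ?_ e5 (by positivity) (by positivity)
        exact mul_le_mul_of_nonneg_left (e3.2.trans e4) hC0.le
      refine Measure.integrableOn_of_bounded (s := D) (M := C * B * B ^ ((1 : ℝ) / 2) *
        (∫ y in D, (1 : ℝ) ^ 4) ^ ((1 : ℝ) / 4)) hfin.ne ?_ ?_
      · exact (hgm.norm.stronglyMeasurable.integral_prod_right
          (ν := volume.restrict D)).aestronglyMeasurable
      · filter_upwards [ae_restrict_mem hD.measurableSet] with x hx using hb x hx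
  have hFi : Integrable (fun q : ℂ × ℂ => g q.1 q.2 * f q.2 * (Δ φ) q.1)
      ((volume.restrict D).prod (volume.restrict D)) := by
    have a1 : Integrable (fun q : ℂ × ℂ => (f q.2 * (Δ φ) q.1) * g q.1 q.2)
        ((volume.restrict D).prod (volume.restrict D)) := by
      refine Integrable.bdd_mul (c := M * L) hgi ?_ ?_
      · exact ((hf.comp measurable_snd).mul
          (hLc.measurable.comp measurable_fst)).aestronglyMeasurable
      · refine Eventually.of_forall fun q => ?_
        rw [norm_mul]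
        exact mul_le_mul (hM _) (hL _) (norm_nonneg _) ((abs_nonneg _).trans (hM 0))
    refine a1.congr (Eventually.of_forall fun q => ?_)
    show f q.2 * (Δ φ) q.1 * g q.1 q.2 = g q.1 q.2 * f q.2 * (Δ φ) q.1
    ring
  calc ∫ x in D, TD (Ddom R) f x * (Δ φ) x
      = ∫ x in D, ∫ y in D, g x y * f y * (Δ φ) x := by
        congr 1
        funext x
        rw [TD, ← integral_mul_const]
    _ = ∫ y in D, ∫ x in D, g x y * f y * (Δ φ) x := by
        exact integral_integral_swap hFi
    _ = ∫ y in D, - (f y * φ y) := by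
        refine setIntegral_congr_fun hD.measurableSet fun y hy => ?_
        have b1 := (h1 D g φ hD hG hφ hc hs y hy).2
        show ∫ x in D, g x y * f y * (Δ φ) x = - (f y * φ y)
        rw [b1, mul_neg, neg_neg, ← integral_const_mul]
        congr 1
        funext x
        ring
    _ = - ∫ x in D, f x * φ x := by
        rw [integral_neg]

end LEP
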