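import Pool.Agent.Helper14.LE.Stmts2

/-!
# MP_08fe4e_an: basic facts on the Laplacian
-/

open MeasureTheory Set Filter Topology InnerProductSpace Laplacian

noncomputable section

namespace LEP

namespace LapB

variable {E : Type} [NormedAddCommGroup E] [InnerProductSpace ℝ E] [FiniteDimensional ℝ E]

lemma lap_eq (φ : E → ℝ) (x : E) : (Δ φ) x = ∑ i, iteratedFDeriv ℝ 2 φ x
    ![(stdOrthonormalBasis ℝ E) i, (stdOrthonormalBasis ℝ E) i] := by
  have := laplacian_eq_iteratedFDeriv_stdOrthonormalBasis φ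
  rw [this]

lemma lap_cont {φ : E → ℝ} (hφ : ContDiff ℝ 2 φ) : Continuous (Δ φ) := by
  have h1 : (Δ φ) = fun x => ∑ i, iteratedFDeriv ℝ 2 φ x
    ![(stdOrthonormalBasis ℝ E) i, (stdOrthonormalBasis ℝ E) i] := by
    funext x; exact lap_eq φ x
  rw [h1]
  refine continuous_finsetSum _ fun i _ => ?_
  have h2 : Continuous (iteratedFDeriv ℝ 2 φ) := hφ.continuous_iteratedFDeriv le_rfl
  have h3 : Continuous (fun L : E [×2]→L[ℝ] ℝ => L ![(stdOrthonormalBasis ℝ E) i,
      (stdOrthonormalBasis ℝ E) i]) :=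
    (ContinuousMultilinearMap.apply ℝ (fun _ : Fin 2 => E) ℝ _).continuous
  exact h3.comp h2

lemma lap_cont_at {φ : E → ℝ} {x : E} (hφ : ContDiffAt ℝ 2 φ x) : ContinuousAt (Δ φ) x := by
  have h1 : (Δ φ) = fun x => ∑ i, iteratedFDeriv ℝ 2 φ x
    ![(stdOrthonormalBasis ℝ E) i, (stdOrthonormalBasis ℝ E) i] := by
    funext x; exact lap_eq φ x
  rw [h1]
  refine tendsto_finsetSum _ fun i _ => ?_
  have h2 : ContinuousAt (iteratedFDeriv ℝ 2 φ) x := hφ.continuousAt_iteratedFDeriv le_rfl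
  have h3 : Continuous (fun L : E [×2]→L[ℝ] ℝ => L ![(stdOrthonormalBasis ℝ E) i,
      (stdOrthonormalBasis ℝ E) i]) :=
    (ContinuousMultilinearMap.apply ℝ (fun _ : Fin 2 => E) ℝ _).continuous
  exact (h3.continuousAt.comp h2 :)

lemma lap_supp (φ : E → ℝ) : Function.support (Δ φ) ⊆ tsupport φ := by
  intro x hx
  by_contra h
  apply hx
  rw [lap_eq]
  refine Finset.sum_eq_zero fun i _ => ?_
  have h2 : iteratedFDeriv ℝ 2 φ x = 0 := by
    by_contra h3
    exact h (support_iteratedFDeriv_subset 2 h3)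
  rw [h2]
  simp

lemma lap_tsupp (φ : E → ℝ) : tsupport (Δ φ) ⊆ tsupport φ :=
  closure_minimal (lap_supp φ) (isClosed_tsupport φ)

lemma lap_hcs {φ : E → ℝ} (hφ : HasCompactSupport φ) : HasCompactSupport (Δ φ) :=
  hφ.of_isClosed_subset (isClosed_tsupport _) (lap_tsupp φ)

end LapB

end LEP
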